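import Pool.Agent.H430R2.PermCubes.Lower
import Pool.Agent.H430R2.PermCubes.Two
import Pool.Agent.H430R2.PermCubes.Upper
import Pool.Agent.TH853.SixTables

set_option autoImplicit false

/-!
# Variational cubes of order six in every dimension at least three
-/

namespace Pool.Agent.TH853.Six

open Function Pool.Agent.H430R2.PermCubes

theorem look_lt (t i : ℕ) : look t i < 6 := Nat.mod_lt _ (by norm_num)

/-- the cubes of dimension three on `Fin 6` -/
def T3 (j : ℕ) (a b c : Fin 6) : Fin 6 := ⟨v3 j a b c, look_lt _ _⟩

/-- the cubes of dimension four on `Fin 6` -/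
def T4 (j : ℕ) (a b c d : Fin 6) : Fin 6 := ⟨v4 j a b c d, look_lt _ _⟩

theorem bij_of_mask {f : ℕ → ℕ} (hf : ∀ t, f t < 6) (h : mask f = 63) :
    Bijective (fun t : Fin 6 => (⟨f t, hf t⟩ : Fin 6)) := by
  rw [← Finite.surjective_iff_bijective]
  intro k
  obtain ⟨t, ht, hk⟩ := mask_surj h k k.2
  exact ⟨⟨t, ht⟩, Fin.ext hk⟩

theorem T3_lines {j : ℕ} (hj : j < 3) (p q : Fin 6) :
    Bijective (fun t => T3 j t p q) ∧ Bijective (fun t => T3 j p t q) ∧
      Bijective (fun t => T3 j p q t) := by
  have h := lines3_true
  simp only [lines3, List.all_eq_true, List.mem_range, Bool.and_eq_true, beq_iff_eq] at h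
  obtain ⟨⟨h1, h2⟩, h3⟩ := h j hj p p.2 q q.2
  exact ⟨bij_of_mask (fun _ => look_lt _ _) h1, bij_of_mask (fun _ => look_lt _ _) h2,
    bij_of_mask (fun _ => look_lt _ _) h3⟩

theorem T4_lines {j : ℕ} (hj : j < 4) (p q r : Fin 6) :
    Bijective (fun t => T4 j t p q r) ∧ Bijective (fun t => T4 j p t q r) ∧
      Bijective (fun t => T4 j p q t r) ∧ Bijective (fun t => T4 j p q r t) := by
  have h := lines4_true
  simp only [lines4, List.all_eq_true, List.mem_range, Bool.and_eq_true, beq_iff_eq] at h
  obtain ⟨⟨⟨h1, h2⟩, h3⟩, h4⟩ := h j hj p p.2 q q.2 r r.2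
  exact ⟨bij_of_mask (fun _ => look_lt _ _) h1, bij_of_mask (fun _ => look_lt _ _) h2,
    bij_of_mask (fun _ => look_lt _ _) h3, bij_of_mask (fun _ => look_lt _ _) h4⟩

theorem T3_inj {a b c a' b' c' : Fin 6} (h0 : T3 0 a b c = T3 0 a' b' c')
    (h1 : T3 1 a b c = T3 1 a' b' c') (h2 : T3 2 a b c = T3 2 a' b' c') :
    a = a' ∧ b = b' ∧ c = c' := by
  have h := inj3_true
  simp only [inj3, List.all_eq_true, List.mem_range, beq_iff_eq] at h
  have e := h a a.2 b b.2 c c.2
  have e' := h a' a'.2 b' b'.2 c' c'.2
  have g0 : v3 0 a b c = v3 0 a' b' c' := congrArg Fin.val h0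
  have g1 : v3 1 a b c = v3 1 a' b' c' := congrArg Fin.val h1
  have g2 : v3 2 a b c = v3 2 a' b' c' := congrArg Fin.val h2
  rw [g0, g1, g2] at e
  have := e.symm.trans e'
  exact ⟨Fin.ext (by omega), Fin.ext (by omega), Fin.ext (by omega)⟩

theorem T4_inj {a b c d a' b' c' d' : Fin 6} (h0 : T4 0 a b c d = T4 0 a' b' c' d')
    (h1 : T4 1 a b c d = T4 1 a' b' c' d') (h2 : T4 2 a b c d = T4 2 a' b' c' d')
    (h3 : T4 3 a b c d = T4 3 a' b' c' d') :
    a = a' ∧ b = b' ∧ c = c' ∧ d = d' := by
  have h := inj4_true
  simp only [inj4, List.all_eq_true, List.mem_range, beq_iff_eq] at h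
  have e := h a a.2 b b.2 c c.2 d d.2
  have e' := h a' a'.2 b' b'.2 c' c'.2 d' d'.2
  have g0 : v4 0 a b c d = v4 0 a' b' c' d' := congrArg Fin.val h0
  have g1 : v4 1 a b c d = v4 1 a' b' c' d' := congrArg Fin.val h1
  have g2 : v4 2 a b c d = v4 2 a' b' c' d' := congrArg Fin.val h2
  have g3 : v4 3 a b c d = v4 3 a' b' c' d' := congrArg Fin.val h3
  rw [g0, g1, g2, g3] at e
  have := e.symm.trans e'
  exact ⟨Fin.ext (by omega), Fin.ext (by omega), Fin.ext (by omega), Fin.ext (by omega)⟩

/-- a variational cube of order six and dimension three -/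
theorem joint_three : Joint (Fin 3) (Fin 6) := by
  refine ⟨fun x j => T3 j (x 0) (x 1) (x 2), ?_, ?_⟩
  · intro x y hxy
    obtain ⟨h0, h1, h2⟩ := T3_inj (congrFun hxy 0) (congrFun hxy 1) (congrFun hxy 2)
    funext i
    fin_cases i
    · exact h0
    · exact h1
    · exact h2
  · intro i j x
    fin_cases j
    · simpa using (T3_lines i.2 (x 1) (x 2)).1
    · simpa using (T3_lines i.2 (x 0) (x 2)).2.1
    · simpa using (T3_lines i.2 (x 0) (x 1)).2.2

/-- a variational cube of order six and dimension four -/
theorem joint_four : Joint (Fin 4) (Fin 6) := by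
  refine ⟨fun x j => T4 j (x 0) (x 1) (x 2) (x 3), ?_, ?_⟩
  · intro x y hxy
    obtain ⟨h0, h1, h2, h3⟩ := T4_inj (congrFun hxy 0) (congrFun hxy 1) (congrFun hxy 2)
      (congrFun hxy 3)
    funext i
    fin_cases i
    · exact h0
    · exact h1
    · exact h2
    · exact h3
  · intro i j x
    fin_cases j
    · simpa using (T4_lines i.2 (x 1) (x 2) (x 3)).1
    · simpa using (T4_lines i.2 (x 0) (x 2) (x 3)).2.1
    · simpa using (T4_lines i.2 (x 0) (x 1) (x 3)).2.2.1
    · simpa using (T4_lines i.2 (x 0) (x 1) (x 2)).2.2.2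

/-- Three jointly injective cubes of dimension three raise the dimension of a variational cube by
two. -/
theorem joint_step {S ι : Type} [DecidableEq ι] (i₀ : ι) (h3 : Joint (Fin 3) S)
    (h : Joint ι S) : Joint (Option (Option ι)) S := by
  obtain ⟨T, hT, hT'⟩ := h3
  obtain ⟨V, hV, hV'⟩ := h
  -- the nodes
  let u : (Option (Option ι) → S) → ι → S := fun x => V fun i => x (some (some i))
  let w : (Option (Option ι) → S) → ι → (Fin 3 → S) := fun x i =>
    ![u x i, x none, x (some none)]
  have hw0 : ∀ (x : Option (Option ι) → S) (l : ι) (t : S) (i : ι),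
      w (update x (some (some l)) t) i =
        update (w x i) 0 (V (update (fun i => x (some (some i))) l t) i) := by
    intro x l t i
    have e : (fun i => update x (some (some l)) t (some (some i))) =
        update (fun i => x (some (some i))) l t := by
      funext i
      by_cases hi : i = l
      · subst hi; simp
      · rw [update_of_ne hi, update_of_ne (by simpa using hi)]
    funext k
    fin_cases k
    · simp [w, u, e]
    · simp [w]
    · simp [w]
  have hw1 : ∀ (x : Option (Option ι) → S) (t : S) (i : ι),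
      w (update x none t) i = update (w x i) 1 t := by
    intro x t i
    funext k
    fin_cases k
    · simp [w, u]
    · simp [w]
    · simp [w]
  have hw2 : ∀ (x : Option (Option ι) → S) (t : S) (i : ι),
      w (update x (some none) t) i = update (w x i) 2 t := by
    intro x t i
    funext k
    fin_cases k
    · simp [w, u]
    · simp [w]
    · simp [w]
  -- every `x ↦ T (w x i) k` is a permutation cube
  have key : ∀ (i : ι) (k : Fin 3) (o : Option (Option ι)) (x : Option (Option ι) → S),
      Bijective (fun t => T (w (update x o t) i) k) := by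
    intro i k o x
    rcases o with _ | _ | l
    · simp only [hw1]
      exact hT' k 1 (w x i)
    · simp only [hw2]
      exact hT' k 2 (w x i)
    · simp only [hw0]
      exact (hT' k 0 (w x i)).comp (hV' i l fun i => x (some (some i)))
  refine ⟨fun x o => match o with
    | none => T (w x i₀) 1
    | some none => T (w x i₀) 2
    | some (some i) => T (w x i) 0, ?_, ?_⟩
  · intro x y hxy
    have e : w x i₀ = w y i₀ := by
      apply hT
      funext k
      fin_cases k
      · exact congrFun hxy (some (some i₀))
      · exact congrFun hxy none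
      · exact congrFun hxy (some none)
    have e1 : x none = y none := by simpa [w] using congrFun e 1
    have e2 : x (some none) = y (some none) := by simpa [w] using congrFun e 2
    have e3 : u x = u y := by
      funext i
      have h0 := congrFun hxy (some (some i))
      simp only at h0
      have hb := hT' 0 0 (w x i)
      have g1 : w x i = update (w x i) 0 (u x i) := by
        funext k
        fin_cases k <;> simp [w]
      have g2 : w y i = update (w x i) 0 (u y i) := by
        funext k
        fin_cases k <;> simp [w, e1, e2]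
      rw [g1, g2] at h0
      simpa using hb.1 h0
    have e4 := hV e3
    funext o
    rcases o with _ | _ | i
    · exact e1
    · exact e2
    · exact congrFun e4 i
  · intro o o' x
    rcases o with _ | _ | i
    · exact key i₀ 1 o' x
    · exact key i₀ 2 o' x
    · exact key i 0 o' x

theorem joint_step_fin {S : Type} {m : ℕ} (h3 : Joint (Fin 3) S) (h : Joint (Fin (m + 1)) S) :
    Joint (Fin (m + 3)) S :=
  (joint_step 0 h3 h).congr (Fintype.equivFinOfCardEq (by simp))

/-- variational cubes of order six exist in every dimension at least three -/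
theorem joint_six : ∀ m, Joint (Fin (m + 3)) (Fin 6) := by
  intro m
  induction m using Nat.strong_induction_on with
  | _ m ih =>
    match m, ih with
    | 0, _ => exact joint_three
    | 1, _ => exact joint_four
    | m + 2, ih => exact joint_step_fin joint_three (ih m (by omega))

theorem variational_of_joint {m n : ℕ} (h : Joint (Fin m) (Fin n)) :
    ∃ C : Fin m → (Fin m → Fin n) → Fin n, IsVariationalSet m n m C := by
  obtain ⟨F, hF, hF'⟩ := h
  refine ⟨fun i x => F x i, fun i j x => hF' i j x, fun e he => ?_⟩
  rw [← Finite.injective_iff_bijective]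
  intro x y hxy
  apply hF
  have hs : Surjective e := Finite.surjective_of_injective he
  funext i
  obtain ⟨k, rfl⟩ := hs i
  exact congrFun hxy k

theorem exists_six {m : ℕ} (hm : 3 ≤ m) :
    ∃ C : Fin m → (Fin m → Fin 6) → Fin 6, IsVariationalSet m 6 m C := by
  obtain ⟨k, rfl⟩ : ∃ k, m = k + 3 := ⟨m - 3, by omega⟩
  exact variational_of_joint (joint_six k)

theorem mono {m n k l : ℕ} (hl : l ≤ k) {C : Fin k → (Fin m → Fin n) → Fin n}
    (h : IsVariationalSet m n k C) :
    IsVariationalSet m n l (fun i => C (Fin.castLE hl i)) :=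
  ⟨fun i => h.1 _, fun e he => h.2 (fun i => Fin.castLE hl (e i))
    ((Fin.castLE_injective hl).comp he)⟩

end Pool.Agent.TH853.Six
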